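import Pool.Agent.Helper8.EI.BData

/-!
# The algebraic independence of `π` and the odd zeta values, and Lambert series at rational points

For `k = 3, 5, 7, …` and `Re z > 0` let `S_k(z) = ∑_{n ≥ 1} n^(-k) / (e^(2 π n z) - 1)`. Ramanujan's formula relates
`S_k(z)`, `S_k(1/z)`, `ζ(k)` and `π^k` by a linear relation with coefficients in `ℚ(z)`. So if `π, ζ(3), …, ζ(2g+1)` are
algebraically dependent, then for ALL rational `q` the numbers `π, S_3(q), …, S_(2g+1)(q), S_3(1/q), …, S_(2g+1)(1/q)` satisfy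
a second relation, of bounded degree and of a height which is at most a fixed power of the height of `q`. We prove the converse
in the strongest sense in which counting can give it: if `π, ζ(3), …, ζ(2g+1)` are algebraically independent then relations of
any fixed degree and polynomially bounded height exist only for `O(T^ε)` of the rational numbers `q` of height at most `T` in
an interval, and so one point `q` for each degree and exponent decides the question. The same holds with arbitrary
further complex numbers `ξ_1, …, ξ_h`. Behind this is a transfer of near relations at almost all tuples of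
points of number fields, for arbitrary complex constants.

Proof: (1) Ramanujan's formula, by partial fractions of a double series. (2) `S_3, S_5, …, S_(2g+1)` are algebraically
independent over `ℂ(z)`: they have the period `i`, hence the set of relations over `ℂ` is invariant under the affine maps
`s ↦ (± z^(1-k) s_k + b_k(z))_k` given by Ramanujan's formula, for all complex `z ≠ 0`; the compositions of the maps for `z` and
`-1/z` are translations whose vectors span `ℂ^g`. (3) The counting theorem for near relations with arbitrary constants as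
coefficients is `Pool.Agent.Y124.excNF` of the library. (4) Elimination with Ramanujan's formula, with bounds.
-/

set_option autoImplicit false

open NumberField

namespace Pool.Agent.Results.MP_a89d6d_nt.LambertCriterion

/-- `S_k(z) = ∑_{n ≥ 1} n^(-k) / (e^(2 π n z) - 1)`, used for `Re z > 0` only -/
noncomputable def S (k : ℕ) (z : ℂ) : ℂ :=
  ∑' n : ℕ, 1 / (((n : ℂ) + 1) ^ k * (Complex.exp (2 * Real.pi * (n + 1) * z) - 1))

/-- the height of a rational number: the maximum of the absolute values of numerator and denominator -/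
def height (q : ℚ) : ℕ := max q.num.natAbs q.den

/-- The numbers `v` satisfy a nontrivial polynomial relation of total degree at most `d` with integral coefficients of
absolute value at most `H`. -/
def Related {σ : Type} (v : σ → ℂ) (d : ℕ) (H : ℝ) : Prop :=
  ∃ P : MvPolynomial σ ℤ, P ≠ 0 ∧ P.totalDegree ≤ d ∧ (∀ s, |((P.coeff s : ℤ) : ℝ)| ≤ H) ∧ MvPolynomial.aeval v P = 0

/-- the family `π, ζ(3), ζ(5), ζ(7), …` -/
noncomputable def family : Option ℕ → ℂ
  | none => Real.pi
  | some j => riemannZeta ((2 * j + 3 : ℕ) : ℂ)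

/-- the numbers `ζ(3), ζ(5), …, ζ(2g+1)`; `π, ξ_1, …, ξ_h` -/
noncomputable def constants (g : ℕ) {h : ℕ} (ξ : Fin h → ℂ) : Fin g ⊕ Fin (h + 1) → ℂ :=
  Sum.elim (fun i => riemannZeta ((2 * (i : ℕ) + 3 : ℕ) : ℂ)) (Fin.cons (Real.pi : ℂ) ξ)

/-- the numbers `S_k(q)`, `k = 3, 5, …, 2g+1`; `S_k(1/q)`, `k = 3, 5, …, 2g+1`; `π, ξ_1, …, ξ_h` -/
noncomputable def numbers (g : ℕ) {h : ℕ} (ξ : Fin h → ℂ) (q : ℚ) : Fin g ⊕ (Fin g ⊕ Fin (h + 1)) → ℂ :=
  Sum.elim (fun i => S (2 * (i : ℕ) + 3) (q : ℂ))
    (Sum.elim (fun i => S (2 * (i : ℕ) + 3) (1 / (q : ℂ))) (Fin.cons (Real.pi : ℂ) ξ))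

/-- The elements of the number field `K` with image in `L` which are quotients of two integers of `K` all of whose
conjugates have absolute value at most `T`. -/
def Points (K : Type) [Field K] [NumberField K] (ι : K →+* ℂ) (L : Set ℂ) (T : ℝ) : Set K :=
  {x | ι x ∈ L ∧ ∃ a b : 𝓞 K, b ≠ 0 ∧ (∀ φ : K →+* ℂ, ‖φ a‖ ≤ T ∧ ‖φ b‖ ≤ T) ∧ x = a / b}

/-- Transfer of near relations at the tuple `x`: for all polynomials `P` with integers of `K` as coefficients, of degree at most
`d` in each variable, with all conjugates of the coefficients at most `T ^ A`, and ALL complex `w`,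
`|P(w, c)| ≤ (T max(1, |w|)) ^ B |P((S_k(x_j))_(j, k), c)|`, with `k = 3, 5, …, 2g+1`. -/
def Transfer {n g h : ℕ} (K : Type) [Field K] [NumberField K] (ι : K →+* ℂ) (c : Fin h → ℂ) (d B : ℕ) (A T : ℝ)
    (x : Fin n → K) : Prop :=
  ∀ P : MvPolynomial ((Fin n × Fin g) ⊕ Fin h) (𝓞 K), (∀ i, P.degreeOf i ≤ d) →
    (∀ s (φ : K →+* ℂ), ‖φ ((P.coeff s : 𝓞 K) : K)‖ ≤ T ^ A) → ∀ w : Fin n × Fin g → ℂ,
      ‖P.eval₂ (ι.comp (algebraMap (𝓞 K) K)) (Sum.elim w c)‖ ≤
        (T * max 1 ‖w‖) ^ B *
          ‖P.eval₂ (ι.comp (algebraMap (𝓞 K) K)) (Sum.elim (fun z => S (2 * (z.2 : ℕ) + 3) (ι (x z.1))) c)‖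

/-- (1) the criterion for the posed question; (2) the criterion for `π, ζ(3), …, ζ(2g+1)` and arbitrary further numbers, by one
point for each degree and exponent, and by the number of exceptions; (3) transfer of near relations at almost all tuples
of points of number fields. -/
theorem result :
    (AlgebraicIndependent ℚ family ↔ ∀ g d A : ℕ, ∃ q : ℚ, 0 < q ∧ q ≠ 1 ∧
      ¬ Related (numbers g (Fin.elim0 : Fin 0 → ℂ) q) d ((height q : ℝ) ^ A)) ∧
    (∀ (g h : ℕ) (ξ : Fin h → ℂ),
      (AlgebraicIndependent ℚ (constants g ξ) ↔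
        ∀ d A : ℕ, ∃ q : ℚ, 0 < q ∧ q ≠ 1 ∧ ¬ Related (numbers g ξ q) d ((height q : ℝ) ^ A)) ∧
      (AlgebraicIndependent ℚ (constants g ξ) ↔
        ∀ (d A : ℕ) (a b ε : ℝ), 0 < a → 0 < ε → ∃ C : ℝ, ∀ T : ℕ, 1 ≤ T →
          ({q : ℚ | a ≤ q ∧ (q : ℝ) ≤ b ∧ q ≠ 1 ∧ height q ≤ T ∧ Related (numbers g ξ q) d ((T : ℝ) ^ A)}.ncard : ℝ) ≤
            C * (T : ℝ) ^ ε)) ∧
    ∀ (m n g h d : ℕ) (L : Set ℂ), IsCompact L → (∀ z ∈ L, 0 < z.re) → ∀ A ε : ℝ, 0 < ε →
      ∃ (B : ℕ) (C T₀ : ℝ), ∀ (K : Type) [Field K] [NumberField K], Module.finrank ℚ K ≤ m → ∀ (ι : K →+* ℂ)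
        (c : Fin h → ℂ) (T : ℝ), T₀ ≤ T →
        {x : Fin n → K | (∀ j, x j ∈ Points K ι L T) ∧ ¬ Transfer (g := g) K ι c d B A T x}.Finite ∧
        ({x : Fin n → K | (∀ j, x j ∈ Points K ι L T) ∧ ¬ Transfer (g := g) K ι c d B A T x}.ncard : ℝ) ≤
          C * T ^ ε * ((Points K ι L T).ncard : ℝ) ^ (n - 1) := by
  classical
  have hk : ∀ i : ℕ, 2 * (i + 1) + 1 = 2 * i + 3 := fun i => by ring
  have hZ : ∀ i : ℕ, Helper8.EI.ZZ (2 * (i + 1) + 1) = riemannZeta ((2 * i + 3 : ℕ) : ℂ) := by
    intro i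
    rw [hk]
    exact Helper8.EI.ZZ_zeta (by omega)
  have hS : ∀ (i : ℕ) (z : ℂ), Helper8.EI.SS (2 * (i + 1) + 1) z = S (2 * i + 3) z := by
    intro i z
    rw [hk]
    rfl
  have hc : ∀ (g h : ℕ) (ξ : Fin h → ℂ), constants g ξ =
      Sum.elim (fun i : Fin g => Helper8.EI.ZZ (2 * ((i : ℕ) + 1) + 1)) (Fin.cons (Real.pi : ℂ) ξ) := by
    intro g h ξ
    funext i
    rcases i with i | i
    · exact (hZ i).symm
    · rfl
  have hv : ∀ (g h : ℕ) (ξ : Fin h → ℂ) (q : ℚ), numbers g ξ q =
      Helper8.EI.vals (fun (i : Fin g) z => Helper8.EI.SV g z i) (Helper8.EI.YS g) (Fin.cons (Real.pi : ℂ) ξ) q := by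
    intro g h ξ q
    funext i
    rcases i with i | i | i
    · exact (hS i _).symm
    · exact (hS i _).symm
    · rfl
  have hgen : ∀ (g h : ℕ) (ξ : Fin h → ℂ),
      (AlgebraicIndependent ℚ (constants g ξ) ↔
        ∀ d A : ℕ, ∃ q : ℚ, 0 < q ∧ q ≠ 1 ∧ ¬ Related (numbers g ξ q) d ((height q : ℝ) ^ A)) ∧
      (AlgebraicIndependent ℚ (constants g ξ) ↔
        ∀ (d A : ℕ) (a b ε : ℝ), 0 < a → 0 < ε → ∃ C : ℝ, ∀ T : ℕ, 1 ≤ T →
          ({q : ℚ | a ≤ q ∧ (q : ℝ) ≤ b ∧ q ≠ 1 ∧ height q ≤ T ∧ Related (numbers g ξ q) d ((T : ℝ) ^ A)}.ncard : ℝ) ≤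
            C * (T : ℝ) ^ ε) := by
    intro g h ξ
    have h1 := Helper8.EI.crit_pi (g := g) (h := Fin (h + 1)) (Fin.cons (Real.pi : ℂ) ξ) 0 rfl
    rw [← hc] at h1
    simp only [← hv] at h1
    exact h1
  refine ⟨?_, hgen, ?_⟩
  · have h1 : AlgebraicIndependent ℚ family ↔ ∀ g : ℕ, AlgebraicIndependent ℚ (constants g (Fin.elim0 : Fin 0 → ℂ)) := by
      constructor
      · intro hf g
        set e : Fin g ⊕ Fin (0 + 1) → Option ℕ := Sum.elim (fun i => some (i : ℕ)) fun _ => none with he
        have hinj : Function.Injective e := by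
          rintro (a | a) (b | b) hab
          · simp only [he, Sum.elim_inl, Option.some.injEq] at hab
            rw [Fin.ext hab]
          · simp [he] at hab
          · simp [he] at hab
          · have : a = b := by
              have ha := a.2
              have hb := b.2
              ext
              omega
            rw [this]
        have h2 : constants g (Fin.elim0 : Fin 0 → ℂ) = family ∘ e := by
          funext i
          rcases i with i | i
          · rfl
          · have : i = 0 := by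
              have hi := i.2
              ext
              simp
            rw [this]
            rfl
        rw [h2]
        exact hf.comp e hinj
      · intro hg
        refine algebraicIndependent_of_finite_type fun t ht => ?_
        obtain ⟨g, hgt⟩ : ∃ g : ℕ, ∀ j : ℕ, some j ∈ t → j < g := by
          have h2 : (some ⁻¹' t : Set ℕ).Finite := ht.preimage (Option.some_injective ℕ).injOn
          obtain ⟨M, hM⟩ := h2.bddAbove
          exact ⟨M + 1, fun j hj => Nat.lt_succ_of_le (hM hj)⟩
        set e : t → Fin g ⊕ Fin (0 + 1) := fun x =>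
          match x with
          | ⟨none, _⟩ => Sum.inr 0
          | ⟨some j, hj⟩ => Sum.inl ⟨j, hgt j hj⟩ with he
        have hinj : Function.Injective e := by
          rintro ⟨a | a, ha⟩ ⟨b | b, hb⟩ hab
          · rfl
          · simp [he] at hab
          · simp [he] at hab
          · simp only [he, Sum.inl.injEq, Fin.mk.injEq] at hab
            subst hab
            rfl
        have h2 : (fun i : t => family i) = constants g (Fin.elim0 : Fin 0 → ℂ) ∘ e := by
          funext i
          rcases i with ⟨a | a, ha⟩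
          · rfl
          · rfl
        rw [h2]
        exact (hg g).comp e hinj
    rw [h1]
    exact forall_congr' fun g => (hgen g 0 Fin.elim0).1
  · intro m n g h d L hL hL' A ε hε
    obtain ⟨B, C, T₀, hC, hT₀, H⟩ := Helper8.EI.transfer (κ := Fin g) (h := Fin h)
      (fun (i : Fin g) z => Helper8.EI.SV g z i) (fun i => Helper8.EI.SS_an (by omega))
      (fun _ ht => Helper8.EI.locInd_SV g ht) m n d L hL (fun z hz => hL' z hz) A ε hε
    refine ⟨B, C, T₀, fun K _ _ hK ι c T hT => ?_⟩
    have hT0 : 0 ≤ T := by linarith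
    obtain ⟨H1, H2⟩ := H K hK ι c T hT
    have hP : Points K ι L T = {x : K | Y120.HtLe K T x ∧ ι x ∈ L} := by
      ext x
      constructor
      · rintro ⟨h1, a, b, hb, hab, hx⟩
        exact ⟨⟨a, b, hb, Y120.house_le K hT0 fun φ => (hab φ).1, Y120.house_le K hT0 fun φ => (hab φ).2, hx⟩, h1⟩
      · rintro ⟨⟨a, b, hb, ha, hb', hx⟩, h1⟩
        exact ⟨h1, a, b, hb, fun φ => ⟨(Y120.house_ge K _ φ).trans ha, (Y120.house_ge K _ φ).trans hb'⟩, hx⟩
    have hsub : {x : Fin n → K | (∀ j, x j ∈ Points K ι L T) ∧ ¬ Transfer (g := g) K ι c d B A T x} ⊆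
        {x : Fin n → K | (∀ j, Y120.HtLe K T (x j) ∧ ι (x j) ∈ L) ∧
          ¬ Helper8.EI.GoodAt d B (T ^ A) T ι c
            (fun z : Fin n × Fin g => Helper8.EI.SV g (ι (x z.1)) z.2)} := by
      rintro x ⟨hx, hbad⟩
      have hx' : ∀ j, Y120.HtLe K T (x j) ∧ ι (x j) ∈ L := by
        intro j
        have h1 := hx j
        rw [hP] at h1
        exact h1
      refine ⟨hx', fun hgood => hbad ?_⟩
      intro P hPd hPc w
      have h1 := hgood P hPd hPc w
      have h2 : (fun z : Fin n × Fin g => Helper8.EI.SV g (ι (x z.1)) z.2) =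
          fun z => S (2 * (z.2 : ℕ) + 3) (ι (x z.1)) := by
        funext z
        exact hS _ _
      rw [h2] at h1
      exact h1
    refine ⟨H1.subset hsub, ?_⟩
    rw [← hP] at H2
    exact le_trans (by exact_mod_cast Set.ncard_le_ncard hsub H1) H2

end Pool.Agent.Results.MP_a89d6d_nt.LambertCriterion
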