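import Pool.Agent.Helper76.RJ.Cor

/-!
# Combinations of zeta values with arbitrary real coefficients

Let `c_0, …, c_D` be *arbitrary* real numbers (for example polynomials in `π, ζ(3), ζ(5), …`) and let

`x_j = c_0 ζ(j) + c_1 j ζ(j+1) + … + c_D C(j+D-1, D) ζ(j+D)`,

where `j` runs over the numbers of one parity class with `b < j ≤ s`. We assume that the coefficient `c_l` of some odd zeta
value (some `l` such that `j + l` is odd) is different from zero, and that

`s ≥ 2^41 S^2 (log_2 S + 1) (b + D + S^2 (log_2 S + 1)^2)`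

(so `S` may be as large as a constant times `s^(1/4) / (log s)^(3/4)`, and `D` as large as a constant times
`s / (S^2 log S)`). Let `F` be a real number field and let `V ⊆ ℝ` be an `F`-vector space of finite dimension which contains
`c_0, …, c_D`. If `[F : ℚ] (dim V + m) ≤ S + [F : ℚ]`, then `m` of the numbers `x_j` are linearly independent over `F`
modulo `V`.

Examples.

* (`F = ℚ`, `V` the span of the coefficients) the numbers `c_0, …, c_D, x_j` span a `ℚ`-vector space of dimension at least
  `S + 1`.
* (`c_l = P_l(π)`, `P_l ∈ ℚ[X]` of degree at most `N`, and `V` the space of all these polynomials in `π`) `S - N` of the numbers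
  `x_j` are linearly independent over `ℚ` modulo the polynomials in `π` of degree at most `N`.
* (`D = 1`, `c_0 = 1`, `c_1 = τ / π`) for every real number `τ` the numbers `ζ(2k+1) + τ ρ_k π^(2k+1)`, where
  `ρ_k = (-1)^k 2^(2k+1) (2k+1) B_(2k+2) / (2k+2)!`, span a space of dimension at least `S - 1`
  (`Pool.Agent.Helper76.RJ.pis`; a similar family is treated in `Pool.Agent.Helper76.RJ.pis'`).

Proof. The linear forms are `∑_l c_l C(β+l, l) ∑_t (1/(β+l)!) (F g)^(β+l)(t)` with one rational function `F` and
different polynomials `g`; the coefficients of the forms are rational in the `c_l` and linear in the `x_j`. If all the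
numbers were simultaneously too close to rationals with denominator `q`, then, replacing them by these rationals, a
non-vanishing lemma (the recursion of the germs, for arbitrary rational coefficients) gives a contradiction; it is
essential that this lemma is uniform in the coefficients. The theorem follows from a measure which is uniform in the
coefficients (`Pool.Agent.Helper76.RJ.measure`).
-/

set_option autoImplicit false

open Module

namespace Pool.Agent.Results.MP_a89d6d_nt.RealJets

/-- `ζ(j)`, for `j ≥ 2` -/
noncomputable def zeta (j : ℕ) : ℝ := ∑' n : ℕ, 1 / ((n : ℝ) + 1) ^ j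

/-- `c_0 ζ(j) + c_1 j ζ(j+1) + … + c_D C(j+D-1, D) ζ(j+D)` -/
noncomputable def jet (D : ℕ) (c : ℕ → ℝ) (j : ℕ) : ℝ :=
  ∑ l ∈ Finset.range (D + 1), c l * ((j + l - 1).choose l : ℝ) * zeta (j + l)

/-- The window: the numbers `j` with `b < j ≤ s` such that `e + j` is odd. -/
def Window (e b s : ℕ) : Set ℕ := {j | b < j ∧ j ≤ s ∧ Odd (e + j)}

/-- The window is large. -/
def Large (b D S s : ℕ) : Prop :=
  2 ^ 41 * (S ^ 2 * (Nat.log 2 S + 1) * (b + D + S ^ 2 * (Nat.log 2 S + 1) ^ 2)) ≤ s

/-- **Main result.** -/
theorem result (b D S s e : ℕ) (_hb : 1 ≤ b) (hS : 1 ≤ S) (hs : Large b D S s)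
    (c : ℕ → ℝ) (hc : ∃ l ≤ D, c l ≠ 0 ∧ Even (e + l))
    (F : IntermediateField ℚ ℝ) [FiniteDimensional ℚ F]
    (V : Submodule F ℝ) [Module.Finite F V] (hcV : ∀ l ≤ D, c l ∈ V)
    (m : ℕ) (hm : finrank ℚ F * (finrank F V + m) ≤ S + finrank ℚ F) :
    ∃ J : Finset ℕ, J.card = m ∧ (∀ j ∈ J, j ∈ Window e b s) ∧
      LinearIndependent F (fun j : J => V.mkQ (jet D c (j : ℕ))) :=
  Pool.Agent.Helper76.RJ.indep (Pool.Agent.Helper76.RJ.measure e hS hs) c hc hm F le_rfl V le_rfl hcV

end Pool.Agent.Results.MP_a89d6d_nt.RealJets
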