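import Pool.Agent.Helper76.RP.Cor

/-!
# Dirichlet series with arbitrary real periodic coefficients

Let `f` be an *arbitrary* real function on `ℤ / N` (its values may be any real numbers, for example polynomials in
`π, ζ(3), ζ(5), …`) and let

`D(f, j) = ∑_{n ≥ 1} f(n) n^(-j)`,

where `j` runs over the numbers of one parity class with `b < j ≤ s`. For odd `j` (`e` even) we assume that `f` is not odd, for
even `j` (`e` odd) that `f` is not even, and we assume that

`s ≥ 2^41 N^2 S^2 (log_2 (S N) + 1) (b + S^2 (log_2 (S N) + 1)^2)`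

(so `S` may be as large as a constant times `(s / N^2)^(1/4) / (log s)^(3/4)`). Let `F` be a real number field and let `V ⊆ ℝ`
be an `F`-vector space of finite dimension which contains the values of `f`. If `[F : ℚ] (dim V + m) ≤ S + [F : ℚ]`, then `m`
of the numbers `D(f, j)` are linearly independent over `F` modulo `V`.

Examples.

* (`N = 4`) For all real numbers `α₀, α₁, α₂, τ`, `(α₀, α₁, α₂) ≠ 0`, this applies to the numbers
  `(α₀ + α₁ 2^(-j) + α₂ 4^(-j)) ζ(j) + τ ρ_j π^j`, `j` odd, where `ρ_j π^j = 1 - 3^(-j) + 5^(-j) - …` and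
  `ρ_j ∈ ℚ` (`Pool.Agent.Helper76.RP.zeta_pi`).
* (`f` even and constant on the classes of the `n` with the same `gcd(n, N)`) the numbers `(∑_{d ∣ N} α_d d^(-j)) ζ(j)` with
  arbitrary real `α_d`, which are not all zero.
* real linear combinations, with coefficients which do not depend on `j`, of the values at `j` of the `L`-functions of the real
  characters modulo `N`, of both parities.

Proof. The linear forms are `∑_t f(t) (1/β!) (F g)^(β)(t)` with one rational function `F`, whose poles are multiples of `N`,
found by Siegel's lemma. They are linear in the `D(f, j)` and in the `f(c)`. If all these numbers were simultaneously too close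
to rationals with denominator `q`, then we replace them by these rationals; the new forms vanish, and this is impossible by a
zero estimate (a recursion of germs, where the poles of the inhomogeneous part are at all the fractions `c/N`), which is
uniform in the coefficients.
-/

set_option autoImplicit false

open Module

namespace Pool.Agent.Results.MP_a89d6d_nt.RealPeriodic

/-- `D(f, j) = ∑_{n ≥ 1} f(n) n^(-j)`, for `j ≥ 2` -/
noncomputable def value {N : ℕ} (f : ZMod N → ℝ) (j : ℕ) : ℝ :=
  ∑' n : ℕ, f ((n : ZMod N) + 1) * (1 / ((n : ℝ) + 1) ^ j)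

/-- The window: the numbers `j` with `b < j ≤ s` such that `e + j` is odd. -/
def Window (e b s : ℕ) : Set ℕ := {j | b < j ∧ j ≤ s ∧ Odd (e + j)}

/-- The window is large. -/
def Large (N b S s : ℕ) : Prop :=
  2 ^ 41 * (N ^ 2 * S ^ 2 * (Nat.log 2 (S * N) + 1) * (b + S ^ 2 * (Nat.log 2 (S * N) + 1) ^ 2)) ≤ s

/-- **Main result.** -/
theorem result (N b S s e : ℕ) [NeZero N] (_hb : 1 ≤ b) (hS : 1 ≤ S) (hs : Large N b S s)
    (f : ZMod N → ℝ) (hf : ∃ r, (-1) ^ e * f r + f (-r) ≠ 0)
    (F : IntermediateField ℚ ℝ) [FiniteDimensional ℚ F]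
    (V : Submodule F ℝ) [Module.Finite F V] (hfV : ∀ r, f r ∈ V)
    (m : ℕ) (hm : finrank ℚ F * (finrank F V + m) ≤ S + finrank ℚ F) :
    ∃ J : Finset ℕ, J.card = m ∧ (∀ j ∈ J, j ∈ Window e b s) ∧
      LinearIndependent F (fun j : J => V.mkQ (value f (j : ℕ))) :=
  Pool.Agent.Helper76.RP.indep (Pool.Agent.Helper76.RP.measure e NeZero.one_le hS hs) f hf hm F le_rfl V le_rfl hfV

end Pool.Agent.Results.MP_a89d6d_nt.RealPeriodic
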