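import Pool.Agent.Helper76.RJ.Cor

/-!
# Determinants of odd zeta values

Let `m_1, …, m_r ≥ 2` be distinct and let `μ_0, …, μ_r ≤ D` be distinct. For `j ≥ 2` let `Δ(j)` be the determinant of the
matrix with the `r + 1` rows

`((i + μ_0 - 1)! ζ(i + μ_0), …, (i + μ_r - 1)! ζ(i + μ_r))`, `i = j, m_1, …, m_r`.

If all `μ_k` are even and all `m_i` are odd, then `Δ(j)`, for odd `j`, is a form of degree `r + 1` in odd zeta values with
integer coefficients. For example (`r = 1`, `μ = (0, 2)`, `m_1 = 3`), `Δ(j)` is a rational multiple of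

`12 ζ(5) ζ(j) - j (j + 1) ζ(3) ζ(j + 2)`.

Nothing seems to be known about the arithmetic of such nonlinear polynomials in odd zeta values. We show: let `j` run over the
numbers `b < j ≤ s` of one parity class, such that `j + μ_k` is odd for some `k`. If

`s ≥ 2^41 S^2 (log_2 S + 1) (b + D + S^2 (log_2 S + 1)^2)`,

then the numbers `Δ(j)` span a `ℚ`-vector space of dimension at least `S - r`. More precisely: let `F` be a real number field and
let `V ⊆ ℝ` be any `F`-vector space of finite dimension (for example the space of all polynomials of degree at most `N` in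
`π, ζ(3), …, ζ(2n+1)`). If `[F : ℚ] (dim V + r + 1 + t) ≤ S + [F : ℚ]`, then `t` of the numbers `Δ(j)` are linearly
independent over `F` modulo `V`.

Proof. (1) All minors of the matrix `(C(i+l-1, l) ζ(i+l))` are different from zero (`Pool.Agent.Helper76.RJ.det_ne`): for
a relation `∑ w_i (i+μ_k-1)! ζ(i+μ_k) / (i-1)! = 0`, `1 ≤ k ≤ r`, the polynomial `∑ (w_i / (i-1)!) x^(i-1)` has at most `r - 1`
positive zeros by Descartes' rule, so there is a combination `Q` of the `x^(μ_k)` such that the product does not change its sign,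
and its integral against `1 / (e^x - 1)` cannot vanish.
(2) So `Δ(j)` is a rational multiple of `∑_l c_l C(j+l-1, l) ζ(j+l)` with certain real coefficients `c_l` (minors), not all zero,
and the theorem on such combinations with arbitrary real coefficients applies (`Pool.Agent.Helper76.RJ.indep`).
-/

set_option autoImplicit false

open Module

namespace Pool.Agent.Results.MP_a89d6d_nt.ZetaDeterminants

/-- `ζ(j)`, for `j ≥ 2` -/
noncomputable def zeta (j : ℕ) : ℝ := ∑' n : ℕ, 1 / ((n : ℝ) + 1) ^ j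

/-- The determinant `Δ(j)` of the matrix with the rows
`((i + μ_0 - 1)! ζ(i + μ_0), …, (i + μ_r - 1)! ζ(i + μ_r))`, `i = j, m_1, …, m_r`. -/
noncomputable def zdet {r : ℕ} (m : Fin r → ℕ) (μ : Fin (r + 1) → ℕ) (j : ℕ) : ℝ :=
  Matrix.det (Matrix.of fun i k : Fin (r + 1) =>
    (((Fin.cons j m : Fin (r + 1) → ℕ) i + μ k - 1).factorial : ℝ) * zeta ((Fin.cons j m : Fin (r + 1) → ℕ) i + μ k))

/-- The window: the numbers `j` with `b < j ≤ s` such that `e + j` is odd. -/
def Window (e b s : ℕ) : Set ℕ := {j | b < j ∧ j ≤ s ∧ Odd (e + j)}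

/-- The window is large. -/
def Large (b D S s : ℕ) : Prop :=
  2 ^ 41 * (S ^ 2 * (Nat.log 2 S + 1) * (b + D + S ^ 2 * (Nat.log 2 S + 1) ^ 2)) ≤ s

/-- **Main result.** -/
theorem result (b D S s e : ℕ) (_hb : 1 ≤ b) (hS : 1 ≤ S) (hs : Large b D S s)
    (r : ℕ) (m : Fin r → ℕ) (μ : Fin (r + 1) → ℕ) (hm : Function.Injective m) (hm2 : ∀ i, 2 ≤ m i)
    (hμ : Function.Injective μ) (hμD : ∀ k, μ k ≤ D) (hodd : ∃ k, Even (e + μ k))
    (F : IntermediateField ℚ ℝ) [FiniteDimensional ℚ F]
    (V : Submodule F ℝ) [Module.Finite F V]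
    (t : ℕ) (ht : finrank ℚ F * (finrank F V + (r + 1) + t) ≤ S + finrank ℚ F) :
    ∃ J : Finset ℕ, J.card = t ∧ (∀ j ∈ J, j ∈ Window e b s) ∧
      LinearIndependent F (fun j : J => V.mkQ (zdet m μ (j : ℕ))) :=
  Pool.Agent.Helper76.RJ.dets (Pool.Agent.Helper76.RJ.measure e hS hs) m μ hm hm2 hμ hμD hodd ht F le_rfl V le_rfl

end Pool.Agent.Results.MP_a89d6d_nt.ZetaDeterminants
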